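import Pool.Agent.W792.WA.Stm
import Pool.Agent.W918.LL.Opr
import Pool.Agent.W792.LL.Dia
import Pool.Agent.W335.LLCay
import Pool.Agent.W191.LL.Avg0

set_option autoImplicit false
set_option linter.unusedVariables false
set_option linter.unusedSectionVars false

namespace Pool.Agent.W191.WA

open MeasureTheory Filter Pool.Agent.W792.LL Pool.Agent.W792.WA
open scoped Topology ComplexConjugate

/-! ### l2 -/

theorem nsq {Γ : Type} (f : l2 Γ) : HasSum (fun x => ‖f x‖ ^ 2) (‖f‖ ^ 2) := by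
  have h := Complex.hasSum_re (lp.hasSum_inner (𝕜 := ℂ) f f)
  have e1 : (inner ℂ f f : ℂ).re = ‖f‖ ^ 2 := inner_self_eq_norm_sq (𝕜 := ℂ) f
  have e2 : (fun x => (inner ℂ (f x) (f x) : ℂ).re) = fun x => ‖f x‖ ^ 2 := by
    funext x
    exact inner_self_eq_norm_sq (𝕜 := ℂ) (f x)
  rw [e1, e2] at h
  exact h

theorem dom {Γ : Type} {f g : l2 Γ} {a : ℝ} (ha : 0 ≤ a) (h : ∀ x, ‖f x‖ ≤ a * ‖g x‖) :
    ‖f‖ ≤ a * ‖g‖ := by
  have h1 : ‖f‖ ^ 2 ≤ (a * ‖g‖) ^ 2 := by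
    rw [mul_pow]
    refine hasSum_le (fun x => ?_) (nsq f) ((nsq g).mul_left (a ^ 2))
    rw [← mul_pow]
    exact pow_le_pow_left₀ (norm_nonneg _) (h x) 2
  exact (pow_le_pow_iff_left₀ (norm_nonneg _) (by positivity) (by norm_num)).1 h1

theorem norm_eq_of {Γ : Type} {f g : l2 Γ} (h : ∀ x, ‖f x‖ = ‖g x‖) : ‖f‖ = ‖g‖ := by
  apply le_antisymm
  · have := dom (a := 1) zero_le_one (f := f) (g := g) (fun x => by rw [one_mul, h x])
    rwa [one_mul] at this
  · have := dom (a := 1) zero_le_one (f := g) (g := f) (fun x => by rw [one_mul, h x])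
    rwa [one_mul] at this

variable {d : ℕ}

theorem inner_dl (x : Fin d → ℤ) (f : l2 (Fin d → ℤ)) : inner ℂ (dl x) f = f x := by
  unfold dl
  rw [lp.inner_single_left]
  simp

theorem norm_dl (x : Fin d → ℤ) : ‖(dl x : l2 (Fin d → ℤ))‖ = 1 := by
  unfold dl
  rw [lp.norm_single (by norm_num)]
  simp

theorem single_eq (x : Fin d → ℤ) (c : ℂ) :
    (lp.single 2 x c : l2 (Fin d → ℤ)) = c • dl x := by
  unfold dl
  rw [← lp.single_smul]
  simp

theorem hasSum_dl (f : l2 (Fin d → ℤ)) : HasSum (fun x => f x • (dl x : l2 (Fin d → ℤ))) f := by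
  have h := lp.hasSum_single (p := 2) (by norm_num) f
  simp only [single_eq] at h
  exact h

theorem smeas {Ω : Type} [MeasurableSpace Ω] (f : Ω → l2 (Fin d → ℤ))
    (h : ∀ x, Measurable fun ω => f ω x) : StronglyMeasurable f := by
  refine stronglyMeasurable_of_tendsto (atTop : Filter (Finset (Fin d → ℤ)))
    (f := fun s ω => ∑ x ∈ s, f ω x • (dl x : l2 (Fin d → ℤ))) (fun s => ?_) ?_
  · exact Finset.stronglyMeasurable_fun_sum _ fun x _ => (h x).stronglyMeasurable.smul_const _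
  · rw [tendsto_pi_nhds]
    intro ω
    exact hasSum_dl (f ω)

section int

variable {Ω : Type} [MeasurableSpace Ω] {P : Measure Ω} [IsProbabilityMeasure P]

theorem int_of {E : Type*} [NormedAddCommGroup E] {f : Ω → E} (hf : AEStronglyMeasurable f P)
    {C : ℝ} (hC : ∀ᵐ ω ∂P, ‖f ω‖ ≤ C) : Integrable f P := Integrable.of_bound hf C hC

theorem int_apply {f : Ω → l2 (Fin d → ℤ)} (hf : Integrable f P) (x : Fin d → ℤ) :
    (∫ ω, f ω ∂P) x = ∫ ω, f ω x ∂P := by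
  rw [← inner_dl, ← integral_inner hf]
  simp only [inner_dl]

/-- the variance decomposition -/
theorem var_dec {H : Type*} [NormedAddCommGroup H] [InnerProductSpace ℂ H] [CompleteSpace H]
    [NormedSpace ℝ H] {f : Ω → H} (hf : AEStronglyMeasurable f P) {C : ℝ} (hC : ∀ᵐ ω ∂P, ‖f ω‖ ≤ C) :
    ∫ ω, ‖f ω‖ ^ 2 ∂P = ‖∫ ω, f ω ∂P‖ ^ 2 + ∫ ω, ‖f ω - ∫ ω', f ω' ∂P‖ ^ 2 ∂P := by
  set m := ∫ ω, f ω ∂P with hm
  have hi : Integrable f P := int_of hf hC
  have hg : AEStronglyMeasurable (fun ω => f ω - m) P := hf.sub aestronglyMeasurable_const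
  have hgi : Integrable (fun ω => f ω - m) P := hi.sub (integrable_const m)
  have hgb : ∀ᵐ ω ∂P, ‖f ω - m‖ ≤ C + ‖m‖ := by
    filter_upwards [hC] with ω h
    exact (norm_sub_le _ _).trans (by linarith)
  have hsq : Integrable (fun ω => ‖f ω - m‖ ^ 2) P := by
    refine int_of (hg.norm.pow 2) (C := (C + ‖m‖) ^ 2) ?_
    filter_upwards [hgb] with ω h
    rw [norm_pow, norm_norm]
    exact pow_le_pow_left₀ (norm_nonneg _) h 2
  have hin : Integrable (fun ω => (inner ℂ m (f ω - m) : ℂ)) P := hgi.const_inner m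
  have h0 : ∫ ω, (inner ℂ m (f ω - m) : ℂ) ∂P = 0 := by
    rw [integral_inner hgi, integral_sub hi (integrable_const m), ← hm]
    simp
  have hre : ∫ ω, (inner ℂ m (f ω - m) : ℂ).re ∂P = 0 := by
    have := integral_re hin
    simp only [RCLike.re_to_complex] at this
    rw [this, h0]
    simp
  have hrei : Integrable (fun ω => (inner ℂ m (f ω - m) : ℂ).re) P := hin.re
  have e : ∀ ω, ‖f ω‖ ^ 2 = (‖m‖ ^ 2 + 2 * (inner ℂ m (f ω - m) : ℂ).re) + ‖f ω - m‖ ^ 2 := by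
    intro ω
    have := norm_add_sq (𝕜 := ℂ) m (f ω - m)
    rw [add_sub_cancel] at this
    exact this
  simp_rw [e]
  rw [integral_add (by exact (integrable_const _).add (hrei.const_mul 2)) hsq,
    integral_add (integrable_const _) (hrei.const_mul 2), integral_const_mul, hre]
  simp

end int

/-! ### quadratic forms -/

theorem quad_ge {H : Type*} [NormedAddCommGroup H] [InnerProductSpace ℂ H] (T : H →L[ℂ] H)
    (hT : ‖T‖ ≤ 1) (a b : H) :
    (1 / 2) * (‖a‖ ^ 2 - ‖T a‖ ^ 2) - ‖b‖ ^ 2 ≤ ‖a + b‖ ^ 2 - ‖T (a + b)‖ ^ 2 := by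
  have hT' : ∀ x, ‖T x‖ ≤ ‖x‖ := fun x => (T.le_opNorm x).trans (by
    calc ‖T‖ * ‖x‖ ≤ 1 * ‖x‖ := mul_le_mul_of_nonneg_right hT (norm_nonneg _)
      _ = ‖x‖ := one_mul _)
  have h1 := parallelogram_law_with_norm ℂ (a + b) b
  have h2 := parallelogram_law_with_norm ℂ (T (a + b)) (T b)
  have e1 : a + b - b = a := by abel
  have e2 : T (a + b) - T b = T a := by rw [← map_sub, e1]
  rw [e1] at h1
  rw [e2, ← map_add] at h2
  have h3 : ‖T (a + b + b)‖ ^ 2 ≤ ‖a + b + b‖ ^ 2 :=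
    pow_le_pow_left₀ (norm_nonneg _) (hT' _) 2
  have h4 : 0 ≤ ‖T b‖ ^ 2 := by positivity
  nlinarith

end Pool.Agent.W191.WA
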