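import Pool.Agent.W191.WA.PA

set_option autoImplicit false
set_option linter.unusedVariables false
set_option linter.unusedSectionVars false

namespace Pool.Agent.W191.WA

open MeasureTheory Filter Pool.Agent.W792.LL Pool.Agent.W792.WA ProbabilityTheory
open scoped Topology ComplexConjugate

variable {d : ℕ}

/-! ### symbols -/

theorem o_mul (m m' : C(UnitAddTorus (Fin d), ℂ)) : opr (m * m') = opr m * opr m' :=
  (Pool.Agent.W918.LL.main d m m').2.2.1

theorem o_add (m m' : C(UnitAddTorus (Fin d), ℂ)) : opr (m + m') = opr m + opr m' :=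
  (Pool.Agent.W918.LL.main d m m').2.2.2.1

theorem o_smul (a : ℂ) (m : C(UnitAddTorus (Fin d), ℂ)) : opr (a • m) = a • opr m :=
  (Pool.Agent.W918.LL.main d m m).2.2.2.2.1 a

theorem o_one : opr (1 : C(UnitAddTorus (Fin d), ℂ)) = 1 :=
  (Pool.Agent.W918.LL.main d 1 1).2.2.2.2.2.1

theorem o_norm (m : C(UnitAddTorus (Fin d), ℂ)) : ‖opr m‖ ≤ ‖m‖ :=
  (Pool.Agent.W918.LL.main d m m).2.1

theorem o_sub (m m' : C(UnitAddTorus (Fin d), ℂ)) : opr (m - m') = opr m - opr m' := by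
  have := o_add (m - m') m'
  rw [sub_add_cancel] at this
  exact eq_sub_of_add_eq this.symm

theorem vol_eq : (volume : Measure (UnitAddTorus (Fin d))) = Pool.Agent.W191.LL.mu d := by
  rw [volume_pi]
  unfold Pool.Agent.W191.LL.mu
  congr 1
  funext i
  rw [AddCircle.volume_eq_smul_haarAddCircle]
  simp

/-! ### the diagonal operator -/

theorem dc_apply (v : (Fin d → ℤ) → ℝ) (u : l2 (Fin d → ℤ)) (x : Fin d → ℤ) :
    dc v u x = cay (v x) * u x :=
  (Pool.Agent.W792.LL.DiaP.main (Fin d → ℤ) (fun x => cay (v x))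
    (fun x => (Pool.Agent.W335.LLCay.norm_cay _).le)).1 u x

theorem dc_norm (v : (Fin d → ℤ) → ℝ) (u : l2 (Fin d → ℤ)) : ‖dc v u‖ = ‖u‖ :=
  norm_eq_of fun x => by rw [dc_apply, norm_mul, Pool.Agent.W335.LLCay.norm_cay, one_mul]

theorem dc_good {v : (Fin d → ℤ) → ℝ} {δ : ℝ} (hδ : 0 ≤ δ) (h : ∀ x, ‖cay (v x) + 1‖ ≤ 2 * δ)
    (u : l2 (Fin d → ℤ)) : ‖dc v u + u‖ ≤ 2 * δ * ‖u‖ := by
  refine dom (by positivity) fun x => ?_
  rw [lp.coeFn_add, Pi.add_apply, dc_apply, ← add_one_mul, norm_mul]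
  exact mul_le_mul_of_nonneg_right (h x) (norm_nonneg _)

variable (ν : Measure ℝ) [IsProbabilityMeasure ν]

theorem ae_good {p : ℝ → Prop} (h : ∀ᵐ a ∂ν, p a) : ∀ᵐ v ∂(Pn ν (Fin d → ℤ)), ∀ x, p (v x) := by
  rw [ae_all_iff]
  intro x
  exact (measurePreserving_eval_infinitePi (fun _ : Fin d → ℤ => ν) x).quasiMeasurePreserving.ae h

/-- the mean of the phase -/
noncomputable def cb : ℂ := ∫ x, cay x ∂ν

theorem cay_meas : Measurable cay := Pool.Agent.W335.LLCay.cont_cay.measurable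

theorem cay_int : Integrable cay ν :=
  int_of cay_meas.aestronglyMeasurable
    (Eventually.of_forall fun x => (Pool.Agent.W335.LLCay.norm_cay x).le)

theorem int_eval {g : ℝ → ℂ} (hg : Measurable g) (x : Fin d → ℤ) :
    ∫ v, g (v x) ∂(Pn ν (Fin d → ℤ)) = ∫ a, g a ∂ν := by
  have h := measurePreserving_eval_infinitePi (fun _ : Fin d → ℤ => ν) x
  have h2 := integral_map h.measurable.aemeasurable (f := g) (by
    rw [h.map_eq]; exact hg.aestronglyMeasurable)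
  rw [h.map_eq] at h2
  exact h2.symm

theorem norm_cb : ‖cb ν‖ ≤ 1 := by
  unfold cb
  have := norm_integral_le_of_norm_le_const (μ := ν) (f := cay) (C := 1)
    (Eventually.of_forall fun x => (Pool.Agent.W335.LLCay.norm_cay x).le)
  simpa using this

theorem vr_eq : vr ν = 1 - ‖cb ν‖ ^ 2 := rfl

theorem vr_nonneg : 0 ≤ vr ν := by
  rw [vr_eq]
  have h1 := norm_cb ν
  have h2 := norm_nonneg (cb ν)
  nlinarith

theorem vr_int : ∫ x, ‖cay x - cb ν‖ ^ 2 ∂ν = vr ν := by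
  have h := var_dec (P := ν) (f := cay) cay_meas.aestronglyMeasurable (C := 1)
    (Eventually.of_forall fun x => (Pool.Agent.W335.LLCay.norm_cay x).le)
  have e : ∫ x, ‖cay x‖ ^ 2 ∂ν = 1 := by
    simp [Pool.Agent.W335.LLCay.norm_cay]
  rw [e] at h
  have h2 : (∫ x, cay x ∂ν) = cb ν := rfl
  rw [h2] at h
  rw [vr_eq]
  linarith

theorem cb_good {δ : ℝ} (h : ∀ᵐ x ∂ν, ‖cay x + 1‖ ≤ 2 * δ) : ‖cb ν + 1‖ ≤ 2 * δ := by
  have h1 := norm_integral_le_of_norm_le_const h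
  have h2 : (∫ x, cay x ∂ν) = cb ν := rfl
  rw [integral_add (cay_int ν) (integrable_const _), h2] at h1
  simpa using h1

/-- the centred phases are orthogonal -/
theorem cov (x y : Fin d → ℤ) :
    ∫ v, conj (cay (v x) - cb ν) * (cay (v y) - cb ν) ∂(Pn ν (Fin d → ℤ)) =
      if x = y then (vr ν : ℂ) else 0 := by
  by_cases h : x = y
  · subst h
    rw [if_pos rfl]
    have e : ∀ v : (Fin d → ℤ) → ℝ, conj (cay (v x) - cb ν) * (cay (v x) - cb ν) =
        (fun a : ℝ => ((‖cay a - cb ν‖ ^ 2 : ℝ) : ℂ)) (v x) := by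
      intro v
      simp only
      rw [mul_comm, Complex.mul_conj']
      push_cast
      rfl
    simp_rw [e]
    rw [int_eval ν (g := fun a : ℝ => ((‖cay a - cb ν‖ ^ 2 : ℝ) : ℂ))
      (Complex.measurable_ofReal.comp ((cay_meas.sub_const _).norm.pow_const 2)) x,
      integral_complex_ofReal, vr_int]
  · rw [if_neg h]
    have hm1 : Measurable fun a : ℝ => conj (cay a - cb ν) :=
      Complex.continuous_conj.measurable.comp (cay_meas.sub_const _)
    have hm2 : Measurable fun a : ℝ => cay a - cb ν := cay_meas.sub_const _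
    have hind := iIndepFun_infinitePi (P := fun _ : Fin d → ℤ => ν)
      (X := fun _ : Fin d → ℤ => (id : ℝ → ℝ)) (fun _ => measurable_id)
    have h1 := ((hind.indepFun h).comp hm1 hm2).integral_fun_mul_eq_mul_integral
      (hm1.comp (measurable_pi_apply x)).aestronglyMeasurable
      (hm2.comp (measurable_pi_apply y)).aestronglyMeasurable
    have h2 : ∫ v, (cay (v y) - cb ν) ∂(Pn ν (Fin d → ℤ)) = 0 := by
      rw [int_eval ν hm2 y, integral_sub (cay_int ν) (integrable_const _)]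
      have : (∫ x, cay x ∂ν) = cb ν := rfl
      rw [this]
      simp
    have h3 : ∫ v, conj (cay (v x) - cb ν) * (cay (v y) - cb ν) ∂(Pn ν (Fin d → ℤ)) =
        (∫ v, conj (cay (v x) - cb ν) ∂(Pn ν (Fin d → ℤ))) *
          ∫ v, (cay (v y) - cb ν) ∂(Pn ν (Fin d → ℤ)) := h1
    rw [h3, h2, mul_zero]

/-! ### the mean square of `m c' w` -/

theorem norm_e (hS : S_SYMB) (m : C(UnitAddTorus (Fin d), ℂ)) (y : Fin d → ℤ) :
    (inner ℂ (opr m (dl y)) (opr m (dl y)) : ℂ) = ((∫ k, ‖m k‖ ^ 2 : ℝ) : ℂ) := by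
  obtain ⟨h1, -, -, -, h5⟩ := hS d
  rw [h1, inner_dl, h5, sub_self, Pool.Agent.W191.LL.mfc_eq, vol_eq, ← integral_complex_ofReal]
  congr 1
  funext t
  rw [neg_zero, UnitAddTorus.mFourier_zero]
  simp only [ContinuousMap.one_apply, one_mul, ContinuousMap.mul_apply, ContinuousMap.star_apply]
  rw [mul_comm]
  exact (Complex.mul_conj' (m t)).trans (by push_cast; rfl)

theorem iso (hS : S_SYMB) (m : C(UnitAddTorus (Fin d), ℂ)) (F : Finset (Fin d → ℤ))
    (a : (Fin d → ℤ) → ℂ) :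
    ∫ v, ‖opr m (∑ y ∈ F, (a y * (cay (v y) - cb ν)) • dl y)‖ ^ 2 ∂(Pn ν (Fin d → ℤ)) =
      vr ν * (∫ k, ‖m k‖ ^ 2) * ∑ y ∈ F, ‖a y‖ ^ 2 := by
  have key : ((∫ v, ‖opr m (∑ y ∈ F, (a y * (cay (v y) - cb ν)) • dl y)‖ ^ 2
      ∂(Pn ν (Fin d → ℤ)) : ℝ) : ℂ) = ((vr ν * (∫ k, ‖m k‖ ^ 2) * ∑ y ∈ F, ‖a y‖ ^ 2 : ℝ) : ℂ) := by
    rw [← integral_complex_ofReal]
    have e : ∀ v : (Fin d → ℤ) → ℝ,
        ((‖opr m (∑ y ∈ F, (a y * (cay (v y) - cb ν)) • dl y)‖ ^ 2 : ℝ) : ℂ) =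
        ∑ x ∈ F, ∑ y ∈ F, (conj (a x) * a y * inner ℂ (opr m (dl x)) (opr m (dl y))) *
          (conj (cay (v x) - cb ν) * (cay (v y) - cb ν)) := by
      intro v
      have h1 := inner_self_eq_norm_sq_to_K (𝕜 := ℂ)
        (opr m (∑ y ∈ F, (a y * (cay (v y) - cb ν)) • dl y))
      rw [Complex.ofReal_pow]
      refine h1.symm.trans ?_
      simp only [map_sum, map_smul]
      rw [sum_inner]
      refine Finset.sum_congr rfl fun x _ => ?_
      rw [inner_sum]
      refine Finset.sum_congr rfl fun y _ => ?_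
      rw [inner_smul_left, inner_smul_right, map_mul]
      ring
    simp_rw [e]
    have hint : ∀ x y : Fin d → ℤ, Integrable (fun v : (Fin d → ℤ) → ℝ =>
        (conj (a x) * a y * inner ℂ (opr m (dl x)) (opr m (dl y))) *
          (conj (cay (v x) - cb ν) * (cay (v y) - cb ν))) (Pn ν (Fin d → ℤ)) := by
      intro x y
      apply Integrable.const_mul
      have hm : Measurable fun v : (Fin d → ℤ) → ℝ =>
          conj (cay (v x) - cb ν) * (cay (v y) - cb ν) :=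
        (Complex.continuous_conj.measurable.comp
          ((cay_meas.comp (measurable_pi_apply x)).sub_const _)).mul
          ((cay_meas.comp (measurable_pi_apply y)).sub_const _)
      refine int_of hm.aestronglyMeasurable (C := 4) (Eventually.of_forall fun v => ?_)
      have h2 : ∀ b : ℝ, ‖cay b - cb ν‖ ≤ 2 := fun b => (norm_sub_le _ _).trans (by
        rw [Pool.Agent.W335.LLCay.norm_cay]
        have := norm_cb ν
        linarith)
      rw [norm_mul, RCLike.norm_conj]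
      nlinarith [h2 (v x), h2 (v y), norm_nonneg (cay (v x) - cb ν),
        norm_nonneg (cay (v y) - cb ν)]
    rw [integral_finsetSum _ fun x _ => integrable_finsetSum _ fun y _ => hint x y]
    have e2 : ∀ x ∈ F, ∫ v, ∑ y ∈ F, (conj (a x) * a y * inner ℂ (opr m (dl x)) (opr m (dl y))) *
          (conj (cay (v x) - cb ν) * (cay (v y) - cb ν)) ∂(Pn ν (Fin d → ℤ)) =
          ((‖a x‖ ^ 2 : ℝ) : ℂ) * ((∫ k, ‖m k‖ ^ 2 : ℝ) : ℂ) * (vr ν : ℂ) := by
      intro x hx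
      rw [integral_finsetSum _ fun y _ => hint x y]
      simp_rw [integral_const_mul, cov]
      rw [Finset.sum_eq_single x]
      · rw [if_pos rfl, norm_e hS]
        have : conj (a x) * a x = ((‖a x‖ ^ 2 : ℝ) : ℂ) := by
          rw [mul_comm, Complex.mul_conj']
          push_cast; rfl
        rw [this]
      · intro y _ hy
        rw [if_neg (Ne.symm hy), mul_zero]
      · intro h; exact absurd hx h
    rw [Finset.sum_congr rfl e2, ← Finset.sum_mul, ← Finset.sum_mul]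
    push_cast
    ring
  exact Complex.ofReal_injective key

/-! ### the Ward identity -/

theorem res (hC : S_CSYM) (m : C(UnitAddTorus (Fin d), ℂ)) (hm : ‖m‖ < 1)
    (u : l2 (Fin d → ℤ)) :
    (StronglyMeasurable fun v => rsv m v u) ∧ (StronglyMeasurable fun v => dc v (rsv m v u)) ∧
    (∀ v, ‖rsv m v u‖ ≤ 1 / (1 - ‖m‖) * ‖u‖) ∧ (∀ v, ‖dc v (rsv m v u)‖ ≤ 1 / (1 - ‖m‖) * ‖u‖) ∧
    (∫ v, rsv m v u ∂(Pn ν (Fin d → ℤ)) = opr (1 + m * csym ν m) u) ∧
    (∫ v, dc v (rsv m v u) ∂(Pn ν (Fin d → ℤ)) = opr (csym ν m) u) := by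
  obtain ⟨hr, hE, -⟩ := hC ν d m hm
  have hm1 : StronglyMeasurable fun v => rsv m v u := smeas _ fun x => (hE u x).1
  have hm2 : StronglyMeasurable fun v => dc v (rsv m v u) := smeas _ fun x => (hE u x).2.1
  have hb1 : ∀ v, ‖rsv m v u‖ ≤ 1 / (1 - ‖m‖) * ‖u‖ := fun v =>
    ((rsv m v).le_opNorm u).trans (mul_le_mul_of_nonneg_right (hr v).1 (norm_nonneg _))
  have hb2 : ∀ v, ‖dc v (rsv m v u)‖ ≤ 1 / (1 - ‖m‖) * ‖u‖ := fun v => by
    rw [dc_norm]; exact hb1 v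
  have hi1 : Integrable (fun v => rsv m v u) (Pn ν (Fin d → ℤ)) :=
    int_of hm1.aestronglyMeasurable (Eventually.of_forall hb1)
  have hi2 : Integrable (fun v => dc v (rsv m v u)) (Pn ν (Fin d → ℤ)) :=
    int_of hm2.aestronglyMeasurable (Eventually.of_forall hb2)
  have e1 : ∫ v, dc v (rsv m v u) ∂(Pn ν (Fin d → ℤ)) = opr (csym ν m) u := by
    ext x
    rw [int_apply hi2, (hE u x).2.2.1]
  have e2 : ∫ v, rsv m v u ∂(Pn ν (Fin d → ℤ)) = opr (1 + m * csym ν m) u := by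
    ext x
    rw [int_apply hi1, (hE u x).2.2.2, o_add, o_one]
    rfl
  exact ⟨hm1, hm2, hb1, hb2, e2, e1⟩

theorem ward (hC : S_CSYM) (m : C(UnitAddTorus (Fin d), ℂ)) (hm : ‖m‖ < 1)
    (u : l2 (Fin d → ℤ)) :
    ∫ v, (‖dc v (rsv m v u) - opr (csym ν m) u‖ ^ 2 -
      ‖opr m (dc v (rsv m v u) - opr (csym ν m) u)‖ ^ 2) ∂(Pn ν (Fin d → ℤ)) =
      ‖opr (1 + m * csym ν m) u‖ ^ 2 - ‖opr (csym ν m) u‖ ^ 2 := by
  obtain ⟨hr, hE, -⟩ := hC ν d m hm
  obtain ⟨hm1, hm2, hb1, hb2, e2, e1⟩ := res ν hC m hm u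
  have hψ : ∀ v, rsv m v u = u + opr m (dc v (rsv m v u)) := by
    intro v
    have h1 := congrArg (fun T : l2 (Fin d → ℤ) →L[ℂ] l2 (Fin d → ℤ) => T u) (hr v).2.1
    simp only [mul_apply_eq_comp, sub_apply, one_apply_eq_self] at h1
    rw [← sub_eq_iff_eq_add]
    exact h1
  have v1 := var_dec (P := Pn ν (Fin d → ℤ)) hm1.aestronglyMeasurable (Eventually.of_forall hb1)
  have v2 := var_dec (P := Pn ν (Fin d → ℤ)) hm2.aestronglyMeasurable (Eventually.of_forall hb2)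
  rw [e2] at v1
  rw [e1] at v2
  have e3 : ∀ v, rsv m v u - opr (1 + m * csym ν m) u =
      opr m (dc v (rsv m v u) - opr (csym ν m) u) := by
    intro v
    rw [map_sub, o_add, o_one, o_mul]
    conv_lhs => rw [hψ v]
    simp only [add_apply, mul_apply_eq_comp, one_apply_eq_self]
    abel
  have e4 : ∀ v : (Fin d → ℤ) → ℝ, ‖rsv m v u‖ ^ 2 = ‖dc v (rsv m v u)‖ ^ 2 := fun v => by
    rw [dc_norm]
  simp_rw [e3, e4] at v1
  rw [integral_sub]
  · linarith
  · refine int_of ((hm2.sub stronglyMeasurable_const).norm.pow 2).aestronglyMeasurable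
      (C := (1 / (1 - ‖m‖) * ‖u‖ + ‖opr (csym ν m) u‖) ^ 2) (Eventually.of_forall fun v => ?_)
    rw [norm_pow, norm_norm]
    exact pow_le_pow_left₀ (norm_nonneg _) ((norm_sub_le _ _).trans (by linarith [hb2 v])) 2
  · refine int_of (((opr m).continuous.comp_stronglyMeasurable
      (hm2.sub stronglyMeasurable_const)).norm.pow 2).aestronglyMeasurable
      (C := (‖opr m‖ * (1 / (1 - ‖m‖) * ‖u‖ + ‖opr (csym ν m) u‖)) ^ 2)
      (Eventually.of_forall fun v => ?_)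
    rw [norm_pow, norm_norm]
    refine pow_le_pow_left₀ (norm_nonneg _) (((opr m).le_opNorm _).trans ?_) 2
    exact mul_le_mul_of_nonneg_left ((norm_sub_le _ _).trans (by linarith [hb2 v])) (norm_nonneg _)

/-! ### pathwise expansions -/

theorem path {A : Type*} [NormedRing A] (c S b Uo R0 E0 F0 : A) (δ CB : ℝ)
    (hδ : 0 < δ) (hCB : 1 ≤ CB) (hsm : 12 * (CB * δ) ≤ 1)
    (h1 : (1 - Uo * c) * R0 = 1) (h2 : F0 * E0 = 1) (h3 : E0 * b = Uo) (h4 : E0 + Uo * S = 1)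
    (n1 : ‖c + 1‖ ≤ 2 * δ) (n2 : ‖S + 1‖ ≤ 4 * δ) (n3 : ‖b‖ ≤ CB) (n4 : ‖c‖ ≤ 1)
    (n5 : ‖(1 : A)‖ ≤ 1) :
    ‖c - S‖ ≤ 6 * δ ∧ ‖R0 * E0‖ ≤ 2 ∧ ‖(c - S) * (R0 * E0) - (c - S)‖ ≤ 72 * CB * δ ^ 2 ∧
      ‖c * (R0 * E0) - ((1 - b) * c + b * S)‖ ≤ 84 * CB ^ 2 * δ ^ 2 := by
  have m1 : ‖c - S‖ ≤ 6 * δ := by
    have e : c - S = (c + 1) - (S + 1) := by abel
    rw [e]
    exact (norm_sub_le _ _).trans (by linarith)
  have hX : ‖b * (c - S)‖ ≤ 6 * (CB * δ) := by
    refine (norm_mul_le _ _).trans ?_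
    calc ‖b‖ * ‖c - S‖ ≤ CB * (6 * δ) := mul_le_mul n3 m1 (norm_nonneg _) (by linarith)
      _ = 6 * (CB * δ) := by ring
  have e1 : E0 * (1 - b * (c - S)) = 1 - Uo * c := by
    have : E0 * (1 - b * (c - S)) = (E0 + (E0 * b) * S) - (E0 * b) * c := by noncomm_ring
    rw [this, h3, h4]
  have e2 : (1 - b * (c - S)) * (R0 * E0) = 1 := by
    have : (1 - b * (c - S)) * (R0 * E0) = F0 * E0 * ((1 - b * (c - S)) * (R0 * E0)) := by
      rw [h2, one_mul]
    rw [this]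
    have e3 : F0 * E0 * ((1 - b * (c - S)) * (R0 * E0)) =
        F0 * ((E0 * (1 - b * (c - S))) * R0) * E0 := by noncomm_ring
    rw [e3, e1, h1, mul_one, h2]
  have e3 : R0 * E0 = 1 + b * (c - S) * (R0 * E0) := by
    have : R0 * E0 = (1 - b * (c - S)) * (R0 * E0) + b * (c - S) * (R0 * E0) := by noncomm_ring
    rw [e2] at this
    exact this
  set R := R0 * E0 with hR
  have m2 : ‖R‖ ≤ 2 := by
    have h5 : ‖R‖ ≤ 1 + 6 * (CB * δ) * ‖R‖ := by
      calc ‖R‖ = ‖1 + b * (c - S) * R‖ := by rw [← e3]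
        _ ≤ ‖(1 : A)‖ + ‖b * (c - S)‖ * ‖R‖ := (norm_add_le _ _).trans
            (add_le_add le_rfl (norm_mul_le _ _))
        _ ≤ 1 + 6 * (CB * δ) * ‖R‖ := add_le_add n5 (mul_le_mul_of_nonneg_right hX (norm_nonneg _))
    have h6 : 6 * (CB * δ) * ‖R‖ ≤ 1 / 2 * ‖R‖ :=
      mul_le_mul_of_nonneg_right (by linarith) (norm_nonneg _)
    linarith
  have hCδ : 0 < CB * δ := by positivity
  have hXR : ‖b * (c - S) * R‖ ≤ 12 * (CB * δ) := by
    refine (norm_mul_le _ _).trans ?_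
    calc ‖b * (c - S)‖ * ‖R‖ ≤ 6 * (CB * δ) * 2 := mul_le_mul hX m2 (norm_nonneg _) (by positivity)
      _ = 12 * (CB * δ) := by ring
  refine ⟨m1, m2, ?_, ?_⟩
  · have e4 : (c - S) * R - (c - S) = (c - S) * (b * (c - S) * R) := by
      have : (c - S) * R = (c - S) * (1 + b * (c - S) * R) := by rw [← e3]
      rw [this]; noncomm_ring
    rw [e4]
    refine (norm_mul_le _ _).trans ?_
    calc ‖c - S‖ * ‖b * (c - S) * R‖ ≤ 6 * δ * (12 * (CB * δ)) :=
          mul_le_mul m1 hXR (norm_nonneg _) (by positivity)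
      _ = 72 * CB * δ ^ 2 := by ring
  · have e4 : c * R - ((1 - b) * c + b * S) =
        (c + 1) * (b * (c - S)) + c * (b * (c - S) * (b * (c - S) * R)) := by
      have h7 : c * R = c + c * (b * (c - S) * R) := by
        have : c * R = c * (1 + b * (c - S) * R) := by rw [← e3]
        rw [this]; noncomm_ring
      have h8 : b * (c - S) * R = b * (c - S) + b * (c - S) * (b * (c - S) * R) := by
        calc b * (c - S) * R = b * (c - S) * (1 + b * (c - S) * R) :=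
              congrArg (fun z => b * (c - S) * z) e3
          _ = _ := by rw [mul_add, mul_one]
      rw [h7]
      conv_lhs => rw [h8]
      noncomm_ring
    rw [e4]
    have q1 : ‖(c + 1) * (b * (c - S))‖ ≤ 2 * δ * (6 * (CB * δ)) :=
      (norm_mul_le _ _).trans (mul_le_mul n1 hX (norm_nonneg _) (by positivity))
    have q2 : ‖c * (b * (c - S) * (b * (c - S) * R))‖ ≤ 1 * (6 * (CB * δ) * (12 * (CB * δ))) :=
      (norm_mul_le _ _).trans (mul_le_mul n4 ((norm_mul_le _ _).trans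
        (mul_le_mul hX hXR (norm_nonneg _) (by positivity))) (norm_nonneg _) zero_le_one)
    refine (norm_add_le _ _).trans ((add_le_add q1 q2).trans ?_)
    have h9 : CB * δ ^ 2 ≤ CB ^ 2 * δ ^ 2 := by
      have : CB ≤ CB ^ 2 := by nlinarith
      exact mul_le_mul_of_nonneg_right this (by positivity)
    nlinarith

end Pool.Agent.W191.WA
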