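import Pool.Agent.W191.WA.PB

set_option autoImplicit false
set_option linter.unusedVariables false
set_option linter.unusedSectionVars false

namespace Pool.Agent.W191.WA

open MeasureTheory Filter Pool.Agent.W792.LL Pool.Agent.W792.WA
open scoped Topology ComplexConjugate

/-- the bounded operators -/
abbrev Op (d : ℕ) := l2 (Fin d → ℤ) →L[ℂ] l2 (Fin d → ℤ)

variable {d : ℕ} (ν : Measure ℝ) [IsProbabilityMeasure ν]

theorem dc_op (v : (Fin d → ℤ) → ℝ) : ‖dc v‖ ≤ 1 :=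
  ContinuousLinearMap.opNorm_le_bound _ zero_le_one fun u => by rw [dc_norm, one_mul]

theorem dc_add_one {v : (Fin d → ℤ) → ℝ} {δ : ℝ} (hδ : 0 ≤ δ)
    (h : ∀ x, ‖cay (v x) + 1‖ ≤ 2 * δ) : ‖dc v + 1‖ ≤ 2 * δ :=
  ContinuousLinearMap.opNorm_le_bound _ (by positivity) fun u => dc_good hδ h u

theorem dc_mean (w : l2 (Fin d → ℤ)) : (StronglyMeasurable fun v => dc v w) ∧
    ∫ v, dc v w ∂(Pn ν (Fin d → ℤ)) = cb ν • w := by
  have hm : StronglyMeasurable fun v => dc v w := smeas _ fun x => by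
    simp only [dc_apply]
    exact (cay_meas.comp (measurable_pi_apply x)).mul_const _
  refine ⟨hm, ?_⟩
  ext x
  rw [int_apply (int_of hm.aestronglyMeasurable (C := ‖w‖)
    (Eventually.of_forall fun v => (dc_norm v w).le)) x]
  simp only [dc_apply]
  rw [integral_mul_const, int_eval ν cay_meas x]
  rfl

theorem norm_int_ae {Ω : Type} [MeasurableSpace Ω] {P : Measure Ω} [IsProbabilityMeasure P]
    {H : Type*} [NormedAddCommGroup H] [NormedSpace ℝ H] {f : Ω → H} {C : ℝ}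
    (h : ∀ᵐ ω ∂P, ‖f ω‖ ≤ C) : ‖∫ ω, f ω ∂P‖ ≤ C := by
  have := norm_integral_le_of_norm_le_const h
  simpa using this

include ν in
/-- the pathwise estimates -/
theorem pw1 (hC : S_CSYM) {CB δ : ℝ} (hCB : 1 ≤ CB) (hδ : 0 < δ) (hsm : 12 * (CB * δ) ≤ 1)
    {s U B : C(UnitAddTorus (Fin d), ℂ)} (hU : ‖U‖ < 1) (hs : ∀ k, ‖s k + 1‖ ≤ 4 * δ)
    (hB : ∀ k, ‖B k‖ ≤ CB) (hUB : ∀ k, U k * (1 + s k * B k) = B k) {v : (Fin d → ℤ) → ℝ}
    (hv : ∀ x, ‖cay (v x) + 1‖ ≤ 2 * δ) :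
    ‖dc v - opr s‖ ≤ 6 * δ ∧ ‖rsv U v * opr (1 - U * s)‖ ≤ 2 ∧
      ‖(dc v - opr s) * (rsv U v * opr (1 - U * s)) - (dc v - opr s)‖ ≤ 72 * CB * δ ^ 2 ∧
      ‖dc v * (rsv U v * opr (1 - U * s)) - ((1 - opr B) * dc v + opr B * opr s)‖ ≤
        84 * CB ^ 2 * δ ^ 2 := by
  apply path (dc v) (opr s) (opr B) (opr U) (rsv U v) (opr (1 - U * s)) (opr (1 + s * B)) δ CB
    hδ hCB hsm
  · exact ((hC ν d U hU).1 v).2.1
  · rw [← o_mul, ← o_one]
    congr 1
    ext k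
    simp only [ContinuousMap.mul_apply, ContinuousMap.add_apply, ContinuousMap.sub_apply,
      ContinuousMap.one_apply]
    linear_combination -(s k) * hUB k
  · rw [← o_mul]
    congr 1
    ext k
    simp only [ContinuousMap.mul_apply, ContinuousMap.sub_apply, ContinuousMap.one_apply]
    linear_combination -hUB k
  · rw [← o_mul, ← o_add, ← o_one]
    congr 1
    ring
  · exact dc_add_one hδ.le hv
  · have e : opr s + 1 = opr (s + 1) := by rw [o_add, o_one]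
    rw [e]
    refine (o_norm _).trans ((ContinuousMap.norm_le _ (by positivity)).2 fun k => ?_)
    exact hs k
  · exact (o_norm _).trans ((ContinuousMap.norm_le _ (by linarith)).2 hB)
  · exact dc_op v
  · exact ContinuousLinearMap.norm_id_le

/-- first moment -/
theorem first (hS : S_SYMB) (hC : S_CSYM) {CB δ : ℝ} (hCB : 1 ≤ CB) (hδ : 0 < δ)
    (hsm : 12 * (CB * δ) ≤ 1)
    {s U B : C(UnitAddTorus (Fin d), ℂ)} (hU : ‖U‖ < 1) (hs : ∀ k, ‖s k + 1‖ ≤ 4 * δ)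
    (hB : ∀ k, ‖B k‖ ≤ CB) (hUB : ∀ k, U k * (1 + s k * B k) = B k)
    (hν : ∀ᵐ x ∂ν, ‖cay x + 1‖ ≤ 2 * δ) :
    ‖csym ν U * (1 - U * s) - s * ((1 + U * csym ν U) * (1 - U * s))‖ ≤ 12 * δ ∧
    ‖csym ν U * (1 - U * s) - s * ((1 + U * csym ν U) * (1 - U * s)) - (cb ν • 1 - s)‖ ≤
      72 * CB * δ ^ 2 := by
  set tb := csym ν U * (1 - U * s) - s * ((1 + U * csym ν U) * (1 - U * s)) with htb
  have hgood := ae_good (d := d) ν hν
  have hT : ∀ w : l2 (Fin d → ℤ),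
      (Integrable (fun v => dc v (rsv U v (opr (1 - U * s) w)) - opr s (rsv U v (opr (1 - U * s) w)))
        (Pn ν (Fin d → ℤ))) ∧
      ∫ v, (dc v (rsv U v (opr (1 - U * s) w)) - opr s (rsv U v (opr (1 - U * s) w)))
        ∂(Pn ν (Fin d → ℤ)) = opr tb w := by
    intro w
    obtain ⟨hm1, hm2, hb1, hb2, e2, e1⟩ := res ν hC U hU (opr (1 - U * s) w)
    have hi1 := int_of (P := Pn ν (Fin d → ℤ)) hm1.aestronglyMeasurable (Eventually.of_forall hb1)
    have hi2 := int_of (P := Pn ν (Fin d → ℤ)) hm2.aestronglyMeasurable (Eventually.of_forall hb2)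
    have hi3 := (opr s).integrable_comp hi1
    refine ⟨hi2.sub hi3, ?_⟩
    rw [integral_sub hi2 hi3, e1, (opr s).integral_comp_comm hi1, e2, htb]
    simp only [o_sub, o_mul, sub_apply, mul_apply_eq_comp]
  have hn := (hS d).2.1
  constructor
  · rw [← hn]
    refine ContinuousLinearMap.opNorm_le_bound _ (by positivity) fun w => ?_
    rw [← (hT w).2]
    apply norm_int_ae
    filter_upwards [hgood] with v hv
    obtain ⟨p1, p2, -, -⟩ := pw1 ν hC hCB hδ hsm hU hs hB hUB hv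
    have e : dc v (rsv U v (opr (1 - U * s) w)) - opr s (rsv U v (opr (1 - U * s) w)) =
        (dc v - opr s) ((rsv U v * opr (1 - U * s) : Op d) w) := rfl
    rw [e]
    refine ((dc v - opr s).le_opNorm _).trans ?_
    calc ‖dc v - opr s‖ * ‖(rsv U v * opr (1 - U * s) : Op d) w‖ ≤ 6 * δ * (2 * ‖w‖) :=
          mul_le_mul p1 (((rsv U v * opr (1 - U * s)).le_opNorm w).trans
            (mul_le_mul_of_nonneg_right p2 (norm_nonneg _))) (norm_nonneg _) (by positivity)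
      _ = 12 * δ * ‖w‖ := by ring
  · rw [← hn]
    refine ContinuousLinearMap.opNorm_le_bound _ (by positivity) fun w => ?_
    obtain ⟨hm, he⟩ := dc_mean ν w
    have hi := int_of (P := Pn ν (Fin d → ℤ)) hm.aestronglyMeasurable (C := ‖w‖)
      (Eventually.of_forall fun v => (dc_norm v w).le)
    have hci : Integrable (fun v => dc v w - opr s w) (Pn ν (Fin d → ℤ)) :=
      hi.sub (integrable_const _)
    have e3 : opr (tb - (cb ν • 1 - s)) w = ∫ v, ((dc v (rsv U v (opr (1 - U * s) w)) -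
        opr s (rsv U v (opr (1 - U * s) w))) - (dc v w - opr s w)) ∂(Pn ν (Fin d → ℤ)) := by
      rw [integral_sub (hT w).1 hci, (hT w).2,
        integral_sub hi (integrable_const _), he]
      simp only [o_sub, o_smul, o_one, sub_apply, smul_apply, one_apply_eq_self, integral_const,
        probReal_univ, one_smul]
    rw [e3]
    apply norm_int_ae
    filter_upwards [hgood] with v hv
    obtain ⟨-, -, p3, -⟩ := pw1 ν hC hCB hδ hsm hU hs hB hUB hv
    have e : dc v (rsv U v (opr (1 - U * s) w)) - opr s (rsv U v (opr (1 - U * s) w)) -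
        (dc v w - opr s w) =
        ((dc v - opr s) * (rsv U v * opr (1 - U * s)) - (dc v - opr s) : Op d) w := rfl
    rw [e]
    exact (ContinuousLinearMap.le_opNorm _ w).trans (mul_le_mul_of_nonneg_right p3 (norm_nonneg _))

theorem dc_dl (v : (Fin d → ℤ) → ℝ) (y : Fin d → ℤ) : dc v (dl y) = cay (v y) • dl y := by
  ext x
  rw [dc_apply, lp.coeFn_smul, Pi.smul_apply, smul_eq_mul]
  by_cases h : x = y
  · rw [h]
  · unfold dl
    rw [lp.single_apply]
    simp [h]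

theorem norm_sum_dl (F : Finset (Fin d → ℤ)) (a : (Fin d → ℤ) → ℂ) :
    ‖∑ y ∈ F, a y • (dl y : l2 (Fin d → ℤ))‖ ^ 2 = ∑ y ∈ F, ‖a y‖ ^ 2 := by
  classical
  have hx : ∀ x, (∑ y ∈ F, a y • (dl y : l2 (Fin d → ℤ))) x = if x ∈ F then a x else 0 := by
    intro x
    rw [← inner_dl, inner_sum]
    simp only [inner_smul_right, inner_dl]
    have : ∀ y : Fin d → ℤ, (dl y : l2 (Fin d → ℤ)) x = if x = y then 1 else 0 := by
      intro y
      unfold dl
      rw [lp.single_apply, Pi.single_apply]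
    simp only [this, mul_ite, mul_one, mul_zero]
    rw [Finset.sum_ite_eq]
  have h1 := nsq (∑ y ∈ F, a y • (dl y : l2 (Fin d → ℤ)))
  simp only [hx] at h1
  have h2 : HasSum (fun x => ‖if x ∈ F then a x else 0‖ ^ 2)
      (∑ x ∈ F, ‖if x ∈ F then a x else 0‖ ^ 2) :=
    hasSum_sum_of_ne_finset_zero (fun x hx => by rw [if_neg hx]; simp)
  rw [h1.unique h2]
  refine Finset.sum_congr rfl fun x hx => ?_
  rw [if_pos hx]

theorem int_sq {Ω : Type} [MeasurableSpace Ω] {P : Measure Ω} [IsProbabilityMeasure P]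
    {f : Ω → l2 (Fin d → ℤ)} (hf : StronglyMeasurable f) {C : ℝ} (hC : ∀ ω, ‖f ω‖ ≤ C)
    (T : l2 (Fin d → ℤ) →L[ℂ] l2 (Fin d → ℤ)) : Integrable (fun ω => ‖T (f ω)‖ ^ 2) P := by
  refine int_of ((T.continuous.comp_stronglyMeasurable hf).norm.pow 2).aestronglyMeasurable
    (C := (‖T‖ * C) ^ 2) (Eventually.of_forall fun v => ?_)
  rw [norm_pow, norm_norm]
  exact pow_le_pow_left₀ (norm_nonneg _)
    ((T.le_opNorm _).trans (mul_le_mul_of_nonneg_left (hC v) (norm_nonneg _))) 2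

theorem cint (f : UnitAddTorus (Fin d) → ℝ) (hf : Continuous f) :
    Integrable f (volume : Measure (UnitAddTorus (Fin d))) := by
  rw [vol_eq]
  have := hf.continuousOn.integrableOn_compact (μ := Pool.Agent.W191.LL.mu d) isCompact_univ
  rwa [integrableOn_univ] at this

/-- second moment, finitely supported vectors -/
theorem second (hS : S_SYMB) (hC : S_CSYM) {CB δ J : ℝ} (hCB : 1 ≤ CB) (hδ : 0 < δ)
    (hsm : 12 * (CB * δ) ≤ 1)
    {s U B : C(UnitAddTorus (Fin d), ℂ)} (hU : ‖U‖ < 1) (hs : ∀ k, ‖s k + 1‖ ≤ 4 * δ)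
    (hB : ∀ k, ‖B k‖ ≤ CB) (hUB : ∀ k, U k * (1 + s k * B k) = B k)
    (hν : ∀ᵐ x ∂ν, ‖cay x + 1‖ ≤ 2 * δ) (hJ : 0 < J)
    (hJ2 : J ≤ ∫ k, (‖1 + s k * B k‖ ^ 2 - ‖B k‖ ^ 2))
    (hK : (184 * CB ^ 2 * δ ^ 2) ^ 2 ≤ vr ν * J / 4) (F : Finset (Fin d → ℤ))
    (a : (Fin d → ℤ) → ℂ) :
    vr ν * J / 4 * ‖∑ y ∈ F, a y • (dl y : l2 (Fin d → ℤ))‖ ^ 2 ≤
      ‖opr ((1 + U * csym ν U) * (1 - U * s)) (∑ y ∈ F, a y • (dl y : l2 (Fin d → ℤ)))‖ ^ 2 -
      ‖opr (csym ν U * (1 - U * s)) (∑ y ∈ F, a y • (dl y : l2 (Fin d → ℤ)))‖ ^ 2 := by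
  have hnw := norm_sum_dl F a
  set w := ∑ y ∈ F, a y • (dl y : l2 (Fin d → ℤ)) with hw
  have hgood := ae_good (d := d) ν hν
  obtain ⟨hm1, hm2, hb1, hb2, e2, e1⟩ := res ν hC U hU (opr (1 - U * s) w)
  have W := ward ν hC U hU (opr (1 - U * s) w)
  have t1 : opr (1 + U * csym ν U) (opr (1 - U * s) w) =
      opr ((1 + U * csym ν U) * (1 - U * s)) w := by rw [o_mul]; rfl
  have t2 : opr (csym ν U) (opr (1 - U * s) w) = opr (csym ν U * (1 - U * s)) w := by
    rw [o_mul]; rfl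
  rw [t1, t2] at W
  rw [t2] at e1
  rw [← W]
  set g : ((Fin d → ℤ) → ℝ) → l2 (Fin d → ℤ) := fun v => dc v w - cb ν • w with hg
  have hgs : ∀ v, g v = ∑ y ∈ F, (a y * (cay (v y) - cb ν)) • dl y := by
    intro v
    simp only [hg, hw, map_sum, map_smul, dc_dl, Finset.smul_sum, smul_smul]
    rw [← Finset.sum_sub_distrib]
    refine Finset.sum_congr rfl fun y _ => ?_
    rw [← sub_smul]
    congr 1
    ring
  have hgm : StronglyMeasurable g := (dc_mean ν w).1.sub stronglyMeasurable_const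
  have hgb : ∀ v, ‖g v‖ ≤ 2 * ‖w‖ := by
    intro v
    refine (norm_sub_le _ _).trans ?_
    rw [dc_norm, norm_smul]
    have := mul_le_mul_of_nonneg_right (norm_cb ν) (norm_nonneg w)
    linarith
  obtain ⟨hdm, hde⟩ := dc_mean ν w
  have hdi : Integrable (fun v => dc v w) (Pn ν (Fin d → ℤ)) :=
    int_of hdm.aestronglyMeasurable (C := ‖w‖) (Eventually.of_forall fun v => (dc_norm v w).le)
  have hχi : Integrable (fun v => dc v (rsv U v (opr (1 - U * s) w))) (Pn ν (Fin d → ℤ)) :=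
    int_of hm2.aestronglyMeasurable (Eventually.of_forall hb2)
  set t := opr (csym ν U * (1 - U * s)) w with ht
  set ρ : l2 (Fin d → ℤ) := t - ((1 - opr B : Op d) (cb ν • w) + opr B (opr s w)) with hρd
  set r1 : ((Fin d → ℤ) → ℝ) → l2 (Fin d → ℤ) := fun v =>
    dc v (rsv U v (opr (1 - U * s) w)) - ((1 - opr B : Op d) (dc v w) + opr B (opr s w)) with hr1d
  have hLi : Integrable (fun v => (1 - opr B : Op d) (dc v w)) (Pn ν (Fin d → ℤ)) :=
    (1 - opr B : Op d).integrable_comp hdi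
  have hr1 : ∫ v, r1 v ∂(Pn ν (Fin d → ℤ)) = ρ := by
    have h1 : Integrable (fun v => (1 - opr B : Op d) (dc v w) + opr B (opr s w))
        (Pn ν (Fin d → ℤ)) := hLi.add (integrable_const _)
    rw [hr1d, integral_sub hχi h1, integral_add hLi (integrable_const _),
      (1 - opr B : Op d).integral_comp_comm hdi, hde, e1]
    simp only [integral_const, probReal_univ, one_smul, hρd]
  have hr1b : ∀ᵐ v ∂(Pn ν (Fin d → ℤ)), ‖r1 v‖ ≤ 84 * CB ^ 2 * δ ^ 2 * ‖w‖ := by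
    filter_upwards [hgood] with v hv
    obtain ⟨-, -, -, p4⟩ := pw1 ν hC hCB hδ hsm hU hs hB hUB hv
    have e : r1 v = (dc v * (rsv U v * opr (1 - U * s)) -
      ((1 - opr B) * dc v + opr B * opr s) : Op d) w := rfl
    rw [e]
    exact (ContinuousLinearMap.le_opNorm _ w).trans (mul_le_mul_of_nonneg_right p4 (norm_nonneg _))
  have hρ : ‖ρ‖ ≤ 84 * CB ^ 2 * δ ^ 2 * ‖w‖ := by rw [← hr1]; exact norm_int_ae hr1b
  have hBn : ‖opr B‖ ≤ CB := (o_norm _).trans ((ContinuousMap.norm_le _ (by linarith)).2 hB)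
  have hsn : ‖opr s + 1‖ ≤ 4 * δ := by
    have e : opr s + 1 = opr (s + 1) := by rw [o_add, o_one]
    rw [e]
    exact (o_norm _).trans ((ContinuousMap.norm_le _ (by positivity)).2 hs)
  have hUn : ‖opr U‖ ≤ 1 := (o_norm _).trans hU.le
  have eU : ∀ z : l2 (Fin d → ℤ), opr U (opr (1 + s * B) z) = opr B z := by
    intro z
    have : opr U * opr (1 + s * B) = opr B := by
      rw [← o_mul]
      congr 1
      ext k
      exact hUB k
    rw [← this]; rfl
  have hFo : ∀ z : l2 (Fin d → ℤ), opr (1 + s * B) z = z + opr s (opr B z) := by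
    intro z
    rw [o_add, o_one, o_mul]; rfl
  have hcb := cb_good ν hν
  have key : ∀ᵐ v ∂(Pn ν (Fin d → ℤ)),
      (1 / 2) * (‖opr (1 + s * B) (g v)‖ ^ 2 - ‖opr B (g v)‖ ^ 2) -
        (184 * CB ^ 2 * δ ^ 2 * ‖w‖) ^ 2 ≤
      ‖dc v (rsv U v (opr (1 - U * s) w)) - t‖ ^ 2 -
        ‖opr U (dc v (rsv U v (opr (1 - U * s) w)) - t)‖ ^ 2 := by
    filter_upwards [hgood, hr1b] with v hv h1
    have hgn : ‖g v‖ ≤ 4 * δ * ‖w‖ := by
      have e : g v = (dc v w + w) - (cb ν + 1) • w := by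
        simp only [hg, add_smul, one_smul]
        abel
      rw [e]
      refine (norm_sub_le _ _).trans ?_
      rw [norm_smul]
      have h2 := dc_good hδ.le hv w
      have h3 := mul_le_mul_of_nonneg_right hcb (norm_nonneg w)
      linarith
    have hBg : ‖(opr s + 1 : Op d) (opr B (g v))‖ ≤ 16 * CB ^ 2 * δ ^ 2 * ‖w‖ := by
      refine (ContinuousLinearMap.le_opNorm _ _).trans ?_
      have h2 : ‖opr B (g v)‖ ≤ CB * (4 * δ * ‖w‖) :=
        (ContinuousLinearMap.le_opNorm _ _).trans (mul_le_mul hBn hgn (norm_nonneg _) (by linarith))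
      refine (mul_le_mul hsn h2 (norm_nonneg _) (by positivity)).trans ?_
      have h3 : CB ≤ CB ^ 2 := by nlinarith
      have h4 : 0 ≤ δ ^ 2 * ‖w‖ := by positivity
      nlinarith
    have hrem : ‖r1 v - ρ - (opr s + 1 : Op d) (opr B (g v))‖ ≤ 184 * CB ^ 2 * δ ^ 2 * ‖w‖ := by
      refine (norm_sub_le _ _).trans ?_
      have := norm_sub_le (r1 v) ρ
      linarith
    have hid : dc v (rsv U v (opr (1 - U * s) w)) - t = opr (1 + s * B) (g v) +
        (r1 v - ρ - (opr s + 1 : Op d) (opr B (g v))) := by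
      rw [hFo]
      simp only [hr1d, hρd, hg, add_apply, sub_apply, one_apply_eq_self, map_sub]
      abel
    rw [hid]
    have q := quad_ge (opr U) hUn (opr (1 + s * B) (g v))
      (r1 v - ρ - (opr s + 1 : Op d) (opr B (g v)))
    rw [eU] at q
    have h5 := pow_le_pow_left₀ (norm_nonneg _) hrem 2
    linarith
  have hgF : Integrable (fun v => ‖opr (1 + s * B) (g v)‖ ^ 2) (Pn ν (Fin d → ℤ)) :=
    int_sq hgm hgb _
  have hgB : Integrable (fun v => ‖opr B (g v)‖ ^ 2) (Pn ν (Fin d → ℤ)) := int_sq hgm hgb _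
  have hχm : StronglyMeasurable fun v => dc v (rsv U v (opr (1 - U * s) w)) - t :=
    hm2.sub stronglyMeasurable_const
  have hχb : ∀ v, ‖dc v (rsv U v (opr (1 - U * s) w)) - t‖ ≤
      1 / (1 - ‖U‖) * ‖opr (1 - U * s) w‖ + ‖t‖ := fun v =>
    (norm_sub_le _ _).trans (by linarith [hb2 v])
  have hR1 : Integrable (fun v => ‖dc v (rsv U v (opr (1 - U * s) w)) - t‖ ^ 2)
      (Pn ν (Fin d → ℤ)) := int_sq hχm hχb (1 : Op d)
  have hR2 : Integrable (fun v => ‖opr U (dc v (rsv U v (opr (1 - U * s) w)) - t)‖ ^ 2)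
      (Pn ν (Fin d → ℤ)) := int_sq hχm hχb _
  have I := integral_mono_ae (((hgF.sub hgB).const_mul (1 / 2)).sub (integrable_const
    ((184 * CB ^ 2 * δ ^ 2 * ‖w‖) ^ 2))) (hR1.sub hR2) key
  refine le_trans ?_ I
  have hF1 : ∫ v, ‖opr (1 + s * B) (g v)‖ ^ 2 ∂(Pn ν (Fin d → ℤ)) =
      vr ν * (∫ k, ‖(1 + s * B) k‖ ^ 2) * ∑ y ∈ F, ‖a y‖ ^ 2 := by
    simp_rw [hgs]
    exact iso ν hS _ F a
  have hF2 : ∫ v, ‖opr B (g v)‖ ^ 2 ∂(Pn ν (Fin d → ℤ)) =
      vr ν * (∫ k, ‖B k‖ ^ 2) * ∑ y ∈ F, ‖a y‖ ^ 2 := by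
    simp_rw [hgs]
    exact iso ν hS _ F a
  have hsplit : ∫ k, (‖1 + s k * B k‖ ^ 2 - ‖B k‖ ^ 2) =
      (∫ k, ‖(1 + s * B) k‖ ^ 2) - ∫ k, ‖B k‖ ^ 2 :=
    integral_sub (cint _ (by fun_prop)) (cint _ (by fun_prop))
  have hL : ∫ v, ((1 / 2) * (‖opr (1 + s * B) (g v)‖ ^ 2 - ‖opr B (g v)‖ ^ 2) -
      (184 * CB ^ 2 * δ ^ 2 * ‖w‖) ^ 2) ∂(Pn ν (Fin d → ℤ)) =
      (1 / 2) * (vr ν * (∫ k, (‖1 + s k * B k‖ ^ 2 - ‖B k‖ ^ 2)) * ‖w‖ ^ 2) -
      (184 * CB ^ 2 * δ ^ 2 * ‖w‖) ^ 2 := by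
    have h1 : Integrable (fun v => (1 / 2 : ℝ) * (‖opr (1 + s * B) (g v)‖ ^ 2 -
        ‖opr B (g v)‖ ^ 2)) (Pn ν (Fin d → ℤ)) := (hgF.sub hgB).const_mul (1 / 2)
    rw [integral_sub h1 (integrable_const _), integral_const_mul,
      integral_sub hgF hgB, hF1, hF2, hsplit, hnw]
    simp only [integral_const, probReal_univ, one_smul]
    ring
  have hL' : vr ν * J / 4 * ‖w‖ ^ 2 ≤
      (1 / 2) * (vr ν * (∫ k, (‖1 + s k * B k‖ ^ 2 - ‖B k‖ ^ 2)) * ‖w‖ ^ 2) -
      (184 * CB ^ 2 * δ ^ 2 * ‖w‖) ^ 2 := by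
    have h1 : vr ν * J ≤ vr ν * (∫ k, (‖1 + s k * B k‖ ^ 2 - ‖B k‖ ^ 2)) :=
      mul_le_mul_of_nonneg_left hJ2 (vr_nonneg ν)
    have h2 := mul_le_mul_of_nonneg_right h1 (sq_nonneg ‖w‖)
    have h3 := mul_le_mul_of_nonneg_right hK (sq_nonneg ‖w‖)
    rw [mul_pow (184 * CB ^ 2 * δ ^ 2) ‖w‖ 2]
    linarith
  exact hL'.trans (le_of_eq hL.symm)

theorem main : S_SYMB → S_CSYM → S_PERT := by
  intro hS hC CB hCB
  refine ⟨1 / (1000 * CB ^ 2), by positivity, ?_⟩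
  intro ν _ d s U B δ J hδ hδ0 hν hU hs1 hs hB hUB hJ hJ2 hδ2
  have hCB2 : CB ≤ CB ^ 2 := by nlinarith
  have hCδ2 : CB ^ 2 * δ ≤ 1 / 1000 := by
    rw [le_div_iff₀ (by positivity)] at hδ0
    linarith
  have hCδ : CB * δ ≤ 1 / 1000 := (mul_le_mul_of_nonneg_right hCB2 hδ.le).trans hCδ2
  have hsm : 12 * (CB * δ) ≤ 1 := by linarith
  have hvr := vr_nonneg ν
  have hK : (184 * CB ^ 2 * δ ^ 2) ^ 2 ≤ vr ν * J / 4 := by
    have h1 : (δ ^ 2) ^ 2 ≤ (1 / (1000 * CB ^ 2) * Real.sqrt (vr ν * J)) ^ 2 :=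
      pow_le_pow_left₀ (by positivity) hδ2 2
    rw [mul_pow, Real.sq_sqrt (by positivity)] at h1
    have h2 : (184 * CB ^ 2 * δ ^ 2) ^ 2 = (184 * CB ^ 2) ^ 2 * (δ ^ 2) ^ 2 := by ring
    rw [h2]
    have h3 : (184 * CB ^ 2) ^ 2 * (δ ^ 2) ^ 2 ≤
        (184 * CB ^ 2) ^ 2 * ((1 / (1000 * CB ^ 2)) ^ 2 * (vr ν * J)) :=
      mul_le_mul_of_nonneg_left h1 (by positivity)
    refine h3.trans ?_
    have h4 : (184 * CB ^ 2) ^ 2 * ((1 / (1000 * CB ^ 2)) ^ 2 * (vr ν * J)) =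
        (184 / 1000) ^ 2 * (vr ν * J) := by
      have : CB ≠ 0 := by linarith
      field_simp
    rw [h4]
    have h5 : 0 ≤ vr ν * J := by positivity
    nlinarith
  set C := csym ν U with hCd
  set t1 : C(UnitAddTorus (Fin d), ℂ) := (1 + U * C) * (1 - U * s) with ht1
  set t2 : C(UnitAddTorus (Fin d), ℂ) := C * (1 - U * s) with ht2
  obtain ⟨f1, f2⟩ := first ν hS hC hCB hδ hsm hU hs hB hUB hν
  have hall : ∀ w : l2 (Fin d → ℤ), vr ν * J / 4 * ‖w‖ ^ 2 ≤ ‖opr t1 w‖ ^ 2 - ‖opr t2 w‖ ^ 2 := by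
    intro w
    have hw : Tendsto (fun F : Finset (Fin d → ℤ) => ∑ y ∈ F, w y • (dl y : l2 (Fin d → ℤ)))
        atTop (𝓝 w) := hasSum_dl w
    refine le_of_tendsto_of_tendsto' ((hw.norm.pow 2).const_mul (vr ν * J / 4))
      (((((opr t1).continuous.tendsto w).comp hw).norm.pow 2).sub
        ((((opr t2).continuous.tendsto w).comp hw).norm.pow 2)) fun F => ?_
    exact second ν hS hC hCB hδ hsm hU hs hB hUB hν hJ hJ2 hK F fun y => w y
  have hpos : ∀ k, 0 ≤ ‖t1 k‖ ^ 2 - ‖t2 k‖ ^ 2 - vr ν * J / 4 := by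
    obtain ⟨h1, -, h3, -, -⟩ := hS d
    have h4 := (h3 (star t1 * t1 - star t2 * t2 - ((vr ν * J / 4 : ℝ) : ℂ) • 1)).1 (by
      intro w
      rw [o_sub, o_sub, o_smul, o_one]
      simp only [sub_apply, smul_apply, one_apply_eq_self, inner_sub_right, inner_smul_right]
      rw [← h1, ← h1, Complex.sub_re, Complex.sub_re]
      have g1 : ∀ z : l2 (Fin d → ℤ), (inner ℂ z z : ℂ).re = ‖z‖ ^ 2 := fun z =>
        inner_self_eq_norm_sq (𝕜 := ℂ) z
      rw [Complex.re_ofReal_mul, g1, g1, g1]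
      linarith [hall w])
    intro k
    have h5 := h4 k
    simp only [ContinuousMap.sub_apply, ContinuousMap.mul_apply, ContinuousMap.star_apply,
      ContinuousMap.smul_apply, ContinuousMap.one_apply, smul_eq_mul, mul_one, Complex.sub_re,
      Complex.ofReal_re] at h5
    have g2 : ∀ z : ℂ, (star z * z).re = ‖z‖ ^ 2 := by
      intro z
      have : star z * z = ((‖z‖ ^ 2 : ℝ) : ℂ) := by
        rw [mul_comm]
        exact (Complex.mul_conj' z).trans (by push_cast; rfl)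
      rw [this, Complex.ofReal_re]
    rw [g2, g2] at h5
    exact h5
  set tb : C(UnitAddTorus (Fin d), ℂ) := t2 - s * t1 with htb
  have f1k : ∀ k, ‖tb k‖ ≤ 12 * δ := fun k => (tb.norm_coe_le_norm k).trans f1
  have f2k : ∀ k, ‖tb k - (cb ν - s k)‖ ≤ 72 * CB * δ ^ 2 := by
    intro k
    have h1 := ((tb - (cb ν • 1 - s)).norm_coe_le_norm k).trans f2
    simpa using h1
  have ht1k : ∀ k, t1 k = 1 + B k * tb k := by
    intro k
    simp only [htb, ht1, ht2, ContinuousMap.mul_apply, ContinuousMap.add_apply,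
      ContinuousMap.sub_apply, ContinuousMap.one_apply]
    have h1 := hUB k
    have h2 : (1 - U k * s k) * B k = U k := by linear_combination -h1
    linear_combination (s k - C k + s k * U k * C k) * h2
  have hBt : ∀ k, ‖B k * tb k‖ ≤ 1 / 2 := by
    intro k
    rw [norm_mul]
    have := mul_le_mul (hB k) (f1k k) (norm_nonneg _) (by linarith)
    linarith
  have hn1 : ∀ k, 1 / 2 ≤ ‖t1 k‖ := by
    intro k
    have h1 := norm_sub_norm_le (1 : ℂ) (-(B k * tb k))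
    rw [norm_one, norm_neg, sub_neg_eq_add, ← ht1k] at h1
    linarith [hBt k]
  have hn2 : ∀ k, ‖t1 k‖ ≤ 2 := by
    intro k
    rw [ht1k]
    refine (norm_add_le _ _).trans ?_
    rw [norm_one]
    linarith [hBt k]
  have hne : ∀ k, 1 + U k * C k ≠ 0 := by
    intro k h
    have h1 := hn1 k
    have h2 : t1 k = (1 + U k * C k) * (1 - U k * s k) := rfl
    rw [h2, h, zero_mul, norm_zero] at h1
    linarith
  have hcont : Continuous fun k => C k / (1 + U k * C k) := by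
    apply Continuous.div C.continuous (by fun_prop) hne
  have hpsi : ∀ k, psi ν U k = C k / (1 + U k * C k) := by
    intro k
    unfold psi toC
    rw [dif_pos hcont]
    rfl
  have hpsi2 : ∀ k, psi ν U k = t2 k / t1 k := by
    intro k
    rw [hpsi]
    have h1 : t1 k ≠ 0 := by
      intro h
      have := hn1 k
      rw [h, norm_zero] at this
      linarith
    rw [div_eq_div_iff (hne k) h1]
    have h2 : t1 k = (1 + U k * C k) * (1 - U k * s k) := rfl
    have h3 : t2 k = C k * (1 - U k * s k) := rfl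
    rw [h2, h3]
    ring
  intro k
  have h1 : t1 k ≠ 0 := by
    intro h
    have := hn1 k
    rw [h, norm_zero] at this
    linarith
  constructor
  · have e : psi ν U k + 1 = (cb ν + 1) + (tb k - (cb ν - s k)) - B k * tb k ^ 2 / t1 k := by
      rw [hpsi2]
      have h2 : tb k = t2 k - s k * t1 k := rfl
      have h3 : t2 k = tb k + s k * t1 k := by rw [h2]; ring
      rw [h3]
      field_simp
      have h4 := ht1k k
      linear_combination (-(tb k)) * h4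
    rw [e]
    have g1 := cb_good ν hν
    have g2 := f2k k
    have g3 : ‖B k * tb k ^ 2 / t1 k‖ ≤ 288 * CB * δ ^ 2 := by
      rw [norm_div, div_le_iff₀ (by linarith [hn1 k]), norm_mul, norm_pow]
      have h2 : ‖tb k‖ ^ 2 ≤ (12 * δ) ^ 2 := pow_le_pow_left₀ (norm_nonneg _) (f1k k) 2
      have h3 : ‖B k‖ * ‖tb k‖ ^ 2 ≤ CB * (12 * δ) ^ 2 :=
        mul_le_mul (hB k) h2 (by positivity) (by linarith)
      have h4 : 288 * CB * δ ^ 2 * (1 / 2) ≤ 288 * CB * δ ^ 2 * ‖t1 k‖ :=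
        mul_le_mul_of_nonneg_left (hn1 k) (by positivity)
      nlinarith
    have h5 : 360 * CB * δ ^ 2 ≤ 2 * δ := by
      have : 360 * CB * δ ^ 2 = 360 * (CB * δ) * δ := by ring
      rw [this]
      exact mul_le_mul_of_nonneg_right (by linarith) hδ.le
    calc ‖cb ν + 1 + (tb k - (cb ν - s k)) - B k * tb k ^ 2 / t1 k‖
        ≤ ‖cb ν + 1‖ + ‖tb k - (cb ν - s k)‖ + ‖B k * tb k ^ 2 / t1 k‖ :=
          (norm_sub_le _ _).trans (add_le_add (norm_add_le _ _) le_rfl)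
      _ ≤ 4 * δ := by linarith
  · rw [hpsi2, norm_div, div_pow, div_le_iff₀ (by have := hn1 k; positivity)]
    have h2 := hpos k
    have h3 : ‖t1 k‖ ^ 2 ≤ 4 := by
      have := pow_le_pow_left₀ (norm_nonneg _) (hn2 k) 2
      linarith
    have h4 : 0 ≤ vr ν * J := by positivity
    nlinarith

end Pool.Agent.W191.WA
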